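import Pool.Agent.H466.LD.L18

/-!
# The gamma factor near a point of the line

Part of GB (project HD of helper466): the logarithmic derivative `Dz` is Lipschitz with the constant
`12 / T` at the height `T`, and `gz (i (y + v)) = gz (i y) exp (i v Dz (i y) + e (v))`.
-/

set_option autoImplicit false

open Complex MeasureTheory Filter Topology Set
open scoped ComplexConjugate

namespace Pool.Agent.H294.HD

open Pool.Agent.H466.HF Pool.Agent.H466.LD

lemma dig_der_im {s : ℂ} (hs : 0 ≤ s.re) (hi : 1 ≤ s.im) :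
    ‖1 / s ^ 2 + 1 / (s + 1) ^ 2 + ∑' n : ℕ, 1 / (s + (n + 2)) ^ 2‖ ≤ 4 / s.im := by
  set τ : ℝ := s.im with hτ
  have hτ0 : 0 < τ := by linarith
  have hterm : ∀ a : ℝ, 0 ≤ a → ‖1 / (s + a) ^ 2‖ ≤ 4 * (1 / (τ + a) - 1 / (τ + a + 1)) := by
    intro a ha
    rw [norm_div, norm_one, norm_pow]
    have h1 : (τ + a) ^ 2 / 2 ≤ ‖s + a‖ ^ 2 := by
      rw [← Complex.normSq_eq_norm_sq, Complex.normSq_apply]
      simp only [add_re, ofReal_re, add_im, ofReal_im, add_zero]
      rw [← hτ]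
      nlinarith [sq_nonneg (τ - a), mul_nonneg hs ha, sq_nonneg s.re]
    have h2 : 4 * (1 / (τ + a) - 1 / (τ + a + 1)) = 4 / ((τ + a) * (τ + a + 1)) := by
      field_simp
      ring
    rw [h2]
    have h3 : 0 < (τ + a) ^ 2 / 2 := by positivity
    have h4 : 0 < (τ + a) * (τ + a + 1) := by positivity
    rw [div_le_div_iff₀ (by linarith) h4]
    nlinarith
  have h1 := hterm 0 le_rfl
  have h2 := hterm 1 zero_le_one
  simp only [ofReal_zero, add_zero, ofReal_one] at h1 h2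
  have h3 : ‖∑' n : ℕ, 1 / (s + (n + 2)) ^ 2‖ ≤ 4 / (τ + 2) := by
    have hb : ∀ n : ℕ, ‖1 / (s + ((n : ℂ) + 2)) ^ 2‖ ≤
        4 * (1 / (τ + (n + 2)) - 1 / (τ + (n + 2) + 1)) := fun n => by
      have := hterm (n + 2) (by positivity)
      push_cast at this
      exact this
    have hpart : ∀ N : ℕ, ∑ n ∈ Finset.range N,
        4 * (1 / (τ + ((n : ℝ) + 2)) - 1 / (τ + ((n : ℝ) + 2) + 1)) =
        4 * (1 / (τ + 2) - 1 / (τ + N + 2)) := by
      intro N
      induction N with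
      | zero => simp
      | succ N ih =>
        rw [Finset.sum_range_succ, ih]
        push_cast
        have e1 : τ + ((N : ℝ) + 2) = τ + N + 2 := by ring
        have e2 : τ + ((N : ℝ) + 2) + 1 = τ + (N + 1) + 2 := by ring
        rw [e2, e1]
        ring
    have hpart2 : ∀ N : ℕ, ∑ n ∈ Finset.range N,
        4 * (1 / (τ + ((n : ℝ) + 2)) - 1 / (τ + ((n : ℝ) + 2) + 1)) ≤ 4 / (τ + 2) := by
      intro N
      rw [hpart]
      have h6 : (0 : ℝ) ≤ 1 / (τ + N + 2) := by positivity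
      have h7 : 4 / (τ + 2) = 4 * (1 / (τ + 2)) := by ring
      rw [h7]
      linarith
    have hnn : ∀ n : ℕ, 0 ≤ 4 * (1 / (τ + ((n : ℝ) + 2)) - 1 / (τ + ((n : ℝ) + 2) + 1)) := fun n =>
      (norm_nonneg _).trans (hb n)
    have hsum : Summable (fun n : ℕ =>
        4 * (1 / (τ + ((n : ℝ) + 2)) - 1 / (τ + ((n : ℝ) + 2) + 1))) :=
      summable_of_sum_range_le hnn hpart2
    exact (tsum_of_norm_bounded hsum.hasSum hb).trans
      (hsum.tsum_le_of_sum_range_le hpart2)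
  calc _ ≤ ‖1 / s ^ 2 + 1 / (s + 1) ^ 2‖ + ‖∑' n : ℕ, 1 / (s + (n + 2)) ^ 2‖ := norm_add_le _ _
    _ ≤ (‖1 / s ^ 2‖ + ‖1 / (s + 1) ^ 2‖) + ‖∑' n : ℕ, 1 / (s + (n + 2)) ^ 2‖ := by
        gcongr
        exact norm_add_le _ _
    _ ≤ (4 * (1 / τ - 1 / (τ + 1)) + 4 * (1 / (τ + 1) - 1 / (τ + 1 + 1))) + 4 / (τ + 2) := by
        gcongr
    _ = 4 / τ := by
        have e1 : τ + 1 + 1 = τ + 2 := by ring
        rw [e1]
        ring

/-- the logarithmic derivative is Lipschitz with a small constant -/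
lemma Dz_lip {h : ℝ} (hh : 2 ≤ h) {z w : ℂ} (hz : 0 ≤ z.re) (hw : 0 ≤ w.re) (hz' : h ≤ z.im)
    (hw' : h ≤ w.im) : ‖Dz z - Dz w‖ ≤ 3 / h * ‖z - w‖ := by
  have hh0 : 0 < h := by linarith
  have hconv : Convex ℝ ({z : ℂ | 0 ≤ z.re} ∩ {z : ℂ | h ≤ z.im}) :=
    (convex_halfSpace_re_ge 0).inter (convex_halfSpace_im_ge h)
  have hmem : ∀ z : ℂ, 0 ≤ z.re → h ≤ z.im → z ∈ ({z : ℂ | 0 ≤ z.re} ∩ {z : ℂ | h ≤ z.im}) :=
    fun z h1 h2 => ⟨h1, h2⟩
  have key := hconv.norm_image_sub_le_of_norm_hasDerivWithin_le (f := Dz)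
      (f' := fun z => -(1 / (z + 3 / 2) ^ 2) + 1 / 2 * (1 / 2 * (1 / (z / 2 + 1 / 4 + 1) ^ 2 +
        1 / ((z / 2 + 1 / 4 + 1) + 1) ^ 2 + ∑' n : ℕ, 1 / ((z / 2 + 1 / 4 + 1) + (n + 2)) ^ 2)))
      (C := 3 / h) (fun z hz => ?_) (fun z hz => ?_) (hmem w hw hw') (hmem z hz hz')
  · exact key
  · have hz1 : 0 ≤ z.re := hz.1
    have hre : 0 < (z / 2 + 1 / 4 + 1).re := by
      have := re_aux hz1
      rw [add_re, one_re]
      linarith
    have h2 : HasDerivAt (fun z : ℂ => z / 2 + 1 / 4 + 1) (1 / 2) z :=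
      (((hasDerivAt_id z).div_const 2).add_const _).add_const _
    have h3 := (H353.E.hasDerivAt_dig hre).comp z h2
    have h4 : HasDerivAt (fun z : ℂ => z + 3 / 2) 1 z := (hasDerivAt_id z).add_const _
    have h5 := h4.inv (den_ne hz1)
    have h6 := h5.add ((h3.sub_const ((Real.log Real.pi : ℝ) : ℂ)).const_mul (1 / 2 : ℂ))
    refine HasDerivAt.hasDerivWithinAt ?_
    refine (h6.congr_of_eventuallyEq (Eventually.of_forall fun z => ?_)).congr_deriv ?_
    · unfold Dz DE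
      simp only [Pi.add_apply, Pi.inv_apply, Function.comp_apply, one_div]
    · rw [neg_div, mul_comm (1 / 2 : ℂ) (1 / (z / 2 + 1 / 4 + 1) ^ 2 +
        1 / ((z / 2 + 1 / 4 + 1) + 1) ^ 2 + ∑' n : ℕ, 1 / ((z / 2 + 1 / 4 + 1) + (n + 2)) ^ 2)]
  · have hz1 : 0 ≤ z.re := hz.1
    have hz2 : h ≤ z.im := hz.2
    have him : (z / 2 + 1 / 4 + 1).im = z.im / 2 := by simp
    have hre : 0 ≤ (z / 2 + 1 / 4 + 1).re := by
      have := re_aux hz1
      rw [add_re, one_re]
      linarith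
    have h1 := dig_der_im (s := z / 2 + 1 / 4 + 1) hre (by rw [him]; linarith)
    rw [him] at h1
    have h2 : h ≤ ‖z + 3 / 2‖ := by
      have h3 := Complex.abs_im_le_norm (z + 3 / 2)
      have h4 : (z + 3 / 2 : ℂ).im = z.im := by simp
      rw [h4] at h3
      linarith [le_abs_self z.im]
    have h3 : ‖-(1 / (z + 3 / 2) ^ 2)‖ ≤ 1 / h := by
      rw [norm_neg, norm_div, norm_one, norm_pow]
      have h5 : 0 < ‖z + 3 / 2‖ := by linarith
      rw [div_le_div_iff₀ (by positivity) hh0]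
      nlinarith
    have h4 : 4 / (z.im / 2) ≤ 8 / h := by
      rw [div_le_div_iff₀ (by linarith) hh0]
      linarith
    refine (norm_add_le _ _).trans ?_
    rw [norm_mul, norm_mul]
    have e4 : ‖(1 / 2 : ℂ)‖ = 1 / 2 := by norm_num
    rw [e4]
    have e5 : 3 / h = 1 / h + 1 / 2 * (1 / 2 * (8 / h)) := by ring
    rw [e5]
    have h6 := h1.trans h4
    linarith

lemma Dz_cont : Continuous fun t : ℝ => Dz ((t : ℂ) * I) := by
  have h : LipschitzWith 12 fun t : ℝ => Dz ((t : ℂ) * I) := by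
    refine LipschitzWith.of_dist_le_mul fun s t => ?_
    rw [dist_eq_norm, Real.dist_eq]
    have h1 := gz_gamW.lip ((s : ℂ) * I) ((t : ℂ) * I) (by simp) (by simp)
    have h2 : ‖(s : ℂ) * I - (t : ℂ) * I‖ = |s - t| := by
      rw [← sub_mul, norm_mul, norm_I, mul_one, ← ofReal_sub, Complex.norm_real, Real.norm_eq_abs]
    rw [h2] at h1
    simpa using h1
  exact h.continuous

/-- the integral of the variation of the logarithmic derivative -/
noncomputable def Ev (y v : ℝ) : ℂ :=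
  ∫ s in (0 : ℝ)..v, I * (Dz (((y + s : ℝ) : ℂ) * I) - Dz ((y : ℂ) * I))

lemma Ev_cont (y : ℝ) :
    Continuous fun s : ℝ => I * (Dz (((y + s : ℝ) : ℂ) * I) - Dz ((y : ℂ) * I)) := by
  have := Dz_cont.comp (continuous_const.add continuous_id : Continuous fun s : ℝ => y + s)
  exact continuous_const.mul (this.sub continuous_const)

lemma Ev_der (y v : ℝ) :
    HasDerivAt (Ev y) (I * (Dz (((y + v : ℝ) : ℂ) * I) - Dz ((y : ℂ) * I))) v :=
  ((Ev_cont y).integral_hasStrictDerivAt 0 v).hasDerivAt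

lemma gz_exp (y v : ℝ) : gz (((y + v : ℝ) : ℂ) * I) =
    gz ((y : ℂ) * I) * cexp (I * Dz ((y : ℂ) * I) * v + Ev y v) := by
  set D0 := Dz ((y : ℂ) * I) with hD0
  have hg : ∀ v : ℝ, HasDerivAt (fun v : ℝ => gz (((y + v : ℝ) : ℂ) * I))
      (gz (((y + v : ℝ) : ℂ) * I) * Dz (((y + v : ℝ) : ℂ) * I) * I) v := by
    intro v
    have h1 := gz_gamW.der (((y : ℂ) + (v : ℂ)) * I) (by simp)
    have h2 : HasDerivAt (fun w : ℂ => ((y : ℂ) + w) * I) I (v : ℂ) := by
      simpa using ((hasDerivAt_id (v : ℂ)).const_add (y : ℂ)).mul_const I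
    have h4 := (h1.comp (v : ℂ) h2).comp_ofReal
    have e1 : ((y + v : ℝ) : ℂ) = (y : ℂ) + (v : ℂ) := by push_cast; ring
    rw [e1]
    refine h4.congr_of_eventuallyEq (Eventually.of_forall fun w => ?_)
    simp only [Function.comp_apply]
    push_cast
    ring
  have hphi : ∀ v : ℝ, HasDerivAt
      (fun v : ℝ => gz (((y + v : ℝ) : ℂ) * I) * cexp (-(I * D0 * v + Ev y v))) 0 v := by
    intro v
    have h1 : HasDerivAt (fun v : ℝ => I * D0 * (v : ℂ)) (I * D0) v := by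
      simpa using (Complex.ofRealCLM.hasDerivAt (x := v)).const_mul (I * D0)
    have h2 := ((h1.add (Ev_der y v)).neg).cexp
    have h3 := (hg v).mul h2
    refine h3.congr_deriv ?_
    simp only [Pi.neg_apply, Pi.add_apply]
    ring
  have hconst := is_const_of_deriv_eq_zero
    (f := fun v : ℝ => gz (((y + v : ℝ) : ℂ) * I) * cexp (-(I * D0 * v + Ev y v)))
    (fun v => (hphi v).differentiableAt) (fun v => (hphi v).deriv) v 0
  have h0 : Ev y 0 = 0 := by
    unfold Ev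
    rw [intervalIntegral.integral_same]
  simp only [h0, add_zero, ofReal_zero, mul_zero, neg_zero, Complex.exp_zero, mul_one] at hconst
  rw [← hconst, mul_assoc, ← Complex.exp_add, neg_add_cancel, Complex.exp_zero, mul_one]

lemma Ev_re (y v : ℝ) : (Ev y v).re ≤ 24 * |v| := by
  have h1 := Complex.reCLM.intervalIntegral_comp_comm (μ := volume)
    ((Ev_cont y).intervalIntegrable 0 v)
  have h2 : (Ev y v).re = ∫ s in (0 : ℝ)..v,
      (I * (Dz (((y + s : ℝ) : ℂ) * I) - Dz ((y : ℂ) * I))).re := h1.symm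
  rw [h2]
  have h3 := intervalIntegral.norm_integral_le_of_norm_le_const (a := 0) (b := v) (C := 24)
    (f := fun s : ℝ => (I * (Dz (((y + s : ℝ) : ℂ) * I) - Dz ((y : ℂ) * I))).re) (fun s _ => by
      have a1 := abs_le.mp (gz_gamW.im (((y + s : ℝ) : ℂ) * I) (by simp))
      have a2 := abs_le.mp (gz_gamW.im ((y : ℂ) * I) (by simp))
      have a3 : (I * (Dz (((y + s : ℝ) : ℂ) * I) - Dz ((y : ℂ) * I))).re =
          -((Dz (((y + s : ℝ) : ℂ) * I)).im - (Dz ((y : ℂ) * I)).im) := by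
        rw [I_mul_re, sub_im]
      rw [a3, Real.norm_eq_abs, abs_le]
      constructor <;> linarith [a1.1, a1.2, a2.1, a2.2])
  rw [sub_zero] at h3
  exact (le_abs_self _).trans h3

lemma Ev_small {T y v : ℝ} (hT : 8 ≤ T) (hy : T / 2 ≤ y) (hv : |v| ≤ T / 4) :
    ‖Ev y v‖ ≤ 12 * v ^ 2 / T := by
  have hT0 : 0 < T := by linarith
  have h3 := intervalIntegral.norm_integral_le_of_norm_le_const (a := 0) (b := v)
    (C := 12 / T * |v|)
    (f := fun s : ℝ => I * (Dz (((y + s : ℝ) : ℂ) * I) - Dz ((y : ℂ) * I))) (fun s hs => by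
      have hs1 : |s| ≤ |v| := by
        rcases Set.mem_uIoc.mp hs with h | h
        · rw [abs_of_pos h.1]
          exact h.2.trans (le_abs_self v)
        · rw [abs_of_nonpos h.2]
          have := neg_abs_le v
          linarith [h.1]
      have hs2 := abs_le.mp (hs1.trans hv)
      have h1 := Dz_lip (h := T / 4) (by linarith) (z := ((y + s : ℝ) : ℂ) * I)
        (w := (y : ℂ) * I) (by simp) (by simp) (by simp; linarith [hs2.1]) (by simp; linarith)
      have h2 : ‖((y + s : ℝ) : ℂ) * I - (y : ℂ) * I‖ = |s| := by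
        rw [← sub_mul, norm_mul, norm_I, mul_one, ← ofReal_sub, Complex.norm_real,
          Real.norm_eq_abs, add_sub_cancel_left]
      rw [h2] at h1
      rw [norm_mul, norm_I, one_mul]
      refine h1.trans ?_
      have e1 : 3 / (T / 4) = 12 / T := by field_simp; norm_num
      rw [e1]
      exact mul_le_mul_of_nonneg_left hs1 (by positivity))
  rw [sub_zero] at h3
  refine h3.trans (le_of_eq ?_)
  rw [mul_assoc, ← pow_two, sq_abs]
  ring

end Pool.Agent.H294.HD
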