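import Pool.Agent.H466.HD.SB
import Pool.Agent.H826.Weyl
import Pool.Agent.H294.HD.GB1

/-!
# From Gaussian averages of `F` to Gaussian averages of zeta (GB, project HD of helper466)
-/

set_option autoImplicit false

open Complex MeasureTheory Filter Topology Set
open scoped ComplexConjugate

namespace Pool.Agent.H294.HD

open Pool.Agent.H466.HF Pool.Agent.H466.LD Pool.Agent.H466.HD

lemma half_ne_one (t : ℝ) : (1 / 2 + (t : ℂ) * I) ≠ 1 := by
  intro h
  have h1 := congrArg re h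
  simp at h1

lemma Zt_cont : Continuous Zt := by
  rw [continuous_iff_continuousAt]
  intro t
  have h1 : ContinuousAt (fun t : ℝ => (1 / 2 : ℂ) + t * I) t := by fun_prop
  exact ContinuousAt.comp (f := fun t : ℝ => (1 / 2 : ℂ) + t * I)
    (differentiableAt_riemannZeta (half_ne_one t)).continuousAt h1

lemma Zt_abs (t : ℝ) : ‖Zt t‖ = ‖Zt |t|‖ := by
  rcases abs_cases t with ⟨h, _⟩ | ⟨h, _⟩
  · rw [h]
  · rw [h]
    unfold Zt
    rw [← RCLike.norm_conj, ← riemannZeta_conj]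
    congr 2
    simp
    exact Complex.conj_ofNat 2

/-- a bound for zeta on the critical line, from Weyl's bound -/
lemma Zt_bound : ∃ K : ℝ, 0 < K ∧ ∀ t : ℝ, ‖Zt t‖ ≤ K * (1 + |t|) ^ (1 / 4 : ℝ) := by
  obtain ⟨C, hC⟩ := Pool.Agent.H826.weyl (1 / 12) (by norm_num)
  obtain ⟨B, hB⟩ := (isCompact_Icc (a := (0 : ℝ)) (b := 1)).bddAbove_image
    Zt_cont.norm.continuousOn
  refine ⟨max (max B C) 1, lt_of_lt_of_le one_pos (le_max_right _ _), fun t => ?_⟩
  rw [Zt_abs]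
  have h0 := abs_nonneg t
  set K : ℝ := max (max B C) 1 with hK
  have hK0 : 0 ≤ K := le_trans zero_le_one (le_max_right _ _)
  rcases le_total |t| 1 with h | h
  · have h1 : ‖Zt |t|‖ ≤ B := hB (mem_image_of_mem _ ⟨h0, h⟩)
    have h2 : (1 : ℝ) ≤ (1 + |t|) ^ (1 / 4 : ℝ) := Real.one_le_rpow (by linarith) (by norm_num)
    calc ‖Zt |t|‖ ≤ K := h1.trans ((le_max_left _ _).trans (le_max_left _ _))
      _ = K * 1 := (mul_one _).symm
      _ ≤ _ := mul_le_mul_of_nonneg_left h2 hK0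
  · have h1 := hC |t| h
    have e1 : (1 / 6 + 1 / 12 : ℝ) = 1 / 4 := by norm_num
    rw [e1] at h1
    have e2 : Zt |t| = riemannZeta (1 / 2 + I * (|t| : ℝ)) := by
      unfold Zt
      rw [mul_comm]
    rw [e2]
    have h2 : |t| ^ (1 / 4 : ℝ) ≤ (1 + |t|) ^ (1 / 4 : ℝ) :=
      Real.rpow_le_rpow h0 (by linarith) (by norm_num)
    have h3 : 0 ≤ |t| ^ (1 / 4 : ℝ) := Real.rpow_nonneg h0 _
    calc _ ≤ C * |t| ^ (1 / 4 : ℝ) := h1
      _ ≤ K * |t| ^ (1 / 4 : ℝ) := by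
          apply mul_le_mul_of_nonneg_right _ h3
          exact (le_max_right _ _).trans (le_max_left _ _)
      _ ≤ _ := mul_le_mul_of_nonneg_left h2 hK0

lemma F_eq (t : ℝ) : LL gk 0 ((t : ℂ) * I) =
    gz ((t : ℂ) * I) * ((1 - 2 / ((t : ℂ) * I + 3 / 2)) * Zt t) := by
  have hz : (0 : ℝ) ≤ ((t : ℂ) * I).re := by simp
  rw [LL_gk_xi, xi_fac hz, Z1_ne (half_ne_one t)]
  have hd := den_ne hz
  unfold Zt
  have e1 : (1 - 2 / ((t : ℂ) * I + 3 / 2)) = ((t : ℂ) * I - 1 / 2) / ((t : ℂ) * I + 3 / 2) := by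
    rw [eq_div_iff hd, sub_mul, div_mul_cancel₀ _ hd]
    ring
  rw [e1]
  ring

lemma r_bound (t : ℝ) : ‖1 - 2 / ((t : ℂ) * I + 3 / 2)‖ ≤ 3 := by
  have h1 := den_norm (z := (t : ℂ) * I) (by simp)
  refine (norm_sub_le _ _).trans ?_
  rw [norm_one, norm_div, Complex.norm_ofNat]
  have h2 : 2 / ‖(t : ℂ) * I + 3 / 2‖ ≤ 2 := by
    rw [div_le_iff₀ (by linarith)]
    linarith
  linarith

lemma r_small {t h : ℝ} (hh : 0 < h) (ht : h ≤ t) : ‖2 / ((t : ℂ) * I + 3 / 2)‖ ≤ 2 / h := by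
  have h1 := Complex.abs_im_le_norm ((t : ℂ) * I + 3 / 2)
  have h2 : ((t : ℂ) * I + 3 / 2 : ℂ).im = t := by simp
  rw [h2] at h1
  rw [norm_div, Complex.norm_ofNat]
  apply div_le_div_of_nonneg_left (by norm_num) hh
  linarith [le_abs_self t]

/-- the factor -/
lemma fac_far (y v : ℝ) :
    ‖cexp (Ev y v) * (1 - 2 / (((y + v : ℝ) : ℂ) * I + 3 / 2)) - 1‖ ≤
      4 * Real.exp (24 * |v|) := by
  refine (norm_sub_le _ _).trans ?_
  rw [norm_mul, Complex.norm_exp, norm_one]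
  have h1 := Real.exp_le_exp.mpr (Ev_re y v)
  have h2 := r_bound (y + v)
  have h3 : 1 ≤ Real.exp (24 * |v|) := Real.one_le_exp (by positivity)
  have h4 : Real.exp (Ev y v).re * ‖1 - 2 / (((y + v : ℝ) : ℂ) * I + 3 / 2)‖ ≤
      Real.exp (24 * |v|) * 3 := mul_le_mul h1 h2 (norm_nonneg _) (Real.exp_pos _).le
  linarith

lemma fac_near {T y v : ℝ} (hT : 192 ≤ T) (hy : T / 2 ≤ y) (hv : |v| ≤ T / 4) :
    ‖cexp (Ev y v) * (1 - 2 / (((y + v : ℝ) : ℂ) * I + 3 / 2)) - 1‖ ≤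
      36 / T * ((1 + v ^ 2) * Real.exp (v ^ 2 / 16)) := by
  have hT0 : 0 < T := by linarith
  have h1 := Ev_small (by linarith) hy hv
  have hv' := abs_le.mp hv
  have h2 := r_small (h := T / 4) (by linarith) (t := y + v) (by linarith [hv'.1])
  have h3 := r_bound (y + v)
  have e1 : cexp (Ev y v) * (1 - 2 / (((y + v : ℝ) : ℂ) * I + 3 / 2)) - 1 =
      (cexp (Ev y v) - 1) * (1 - 2 / (((y + v : ℝ) : ℂ) * I + 3 / 2)) -
      2 / (((y + v : ℝ) : ℂ) * I + 3 / 2) := by ring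
  rw [e1]
  refine (norm_sub_le _ _).trans ?_
  rw [norm_mul]
  have h4 := Complex.norm_exp_sub_sum_le_norm_mul_exp (Ev y v) 1
  simp only [Finset.range_one, Finset.sum_singleton, pow_zero, Nat.factorial_zero, Nat.cast_one,
    div_one, pow_one] at h4
  have h5 : Real.exp ‖Ev y v‖ ≤ Real.exp (v ^ 2 / 16) := by
    apply Real.exp_le_exp.mpr
    refine h1.trans ?_
    rw [div_le_div_iff₀ hT0 (by norm_num)]
    nlinarith [sq_nonneg v]
  have h6 : ‖cexp (Ev y v) - 1‖ ≤ 12 * v ^ 2 / T * Real.exp (v ^ 2 / 16) :=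
    h4.trans (mul_le_mul h1 h5 (Real.exp_pos _).le (by positivity))
  have h7 : ‖cexp (Ev y v) - 1‖ * ‖1 - 2 / (((y + v : ℝ) : ℂ) * I + 3 / 2)‖ ≤
      12 * v ^ 2 / T * Real.exp (v ^ 2 / 16) * 3 :=
    mul_le_mul h6 h3 (norm_nonneg _) (by positivity)
  have h8 : 2 / (T / 4) = 8 / T := by field_simp; norm_num
  rw [h8] at h2
  have h9 : 1 ≤ Real.exp (v ^ 2 / 16) := Real.one_le_exp (by positivity)
  have h10 : 8 / T ≤ 36 / T * Real.exp (v ^ 2 / 16) := by
    calc 8 / T ≤ 36 / T * 1 := by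
          rw [mul_one]
          gcongr
          norm_num
      _ ≤ _ := by gcongr
  calc _ ≤ 12 * v ^ 2 / T * Real.exp (v ^ 2 / 16) * 3 + 36 / T * Real.exp (v ^ 2 / 16) :=
        add_le_add h7 (h2.trans h10)
    _ = _ := by ring

/-- majorant -/
noncomputable def Mj (v : ℝ) : ℝ := (1 + v ^ 2) * Real.exp (-v ^ 2 / 16)

lemma Mj_int : Integrable Mj := by
  have h1 : Integrable fun v : ℝ => Real.exp (-(1 / 16) * v ^ 2) :=
    integrable_exp_neg_mul_sq (by norm_num)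
  have h2 : Integrable fun v : ℝ => v ^ (2 : ℝ) * Real.exp (-(1 / 16) * v ^ 2) :=
    integrable_rpow_mul_exp_neg_mul_sq (by norm_num) (by norm_num)
  refine (h1.add h2).congr (Eventually.of_forall fun v => ?_)
  unfold Mj
  simp only [Pi.add_apply, Real.rpow_two]
  have e1 : -(1 / 16) * v ^ 2 = -v ^ 2 / 16 := by ring
  rw [e1]
  ring

lemma Mj_nonneg (v : ℝ) : 0 ≤ Mj v := by
  unfold Mj
  positivity

lemma G_le {μ : ℝ} (hμ : 0 < μ) (hμ1 : μ ≤ 1) (v : ℝ) :
    Real.exp (-v ^ 2 / (8 * μ)) ≤ Real.exp (-v ^ 2 / 8) := by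
  apply Real.exp_le_exp.mpr
  rw [neg_div, neg_div, neg_le_neg_iff]
  apply div_le_div_of_nonneg_left (sq_nonneg v) (by positivity)
  linarith

/-- the integrand for zeta -/
lemma B_bound {K : ℝ} (hK : 0 < K) (hZ : ∀ t : ℝ, ‖Zt t‖ ≤ K * (1 + |t|) ^ (1 / 4 : ℝ))
    {μ : ℝ} (hμ : 0 < μ) (hμ1 : μ ≤ 1) (y u v : ℝ) :
    ‖Zt (y + v) * cexp (I * u * v) * (Real.exp (-v ^ 2 / (8 * μ)) : ℂ)‖ ≤
      2 * K * (1 + |y|) * Mj v := by
  have hc : ‖cexp (I * u * v)‖ = 1 := by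
    rw [Complex.norm_exp]
    simp
  rw [norm_mul, norm_mul, hc, mul_one, Complex.norm_real, Real.norm_eq_abs,
    abs_of_pos (Real.exp_pos _)]
  have h1 := hZ (y + v)
  have h2 : (1 + |y + v|) ^ (1 / 4 : ℝ) ≤ 1 + |y + v| := by
    have := Real.rpow_le_rpow_of_exponent_le (x := 1 + |y + v|) (by linarith [abs_nonneg (y + v)])
      (show (1 / 4 : ℝ) ≤ 1 by norm_num)
    rwa [Real.rpow_one] at this
  have h3 : 1 + |y + v| ≤ (1 + |y|) * (2 * (1 + v ^ 2)) := by
    have h4 := abs_add_le y v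
    have h5 : |v| ≤ 1 + v ^ 2 := by
      nlinarith [sq_abs v, sq_nonneg (|v| - 1), abs_nonneg v]
    nlinarith [abs_nonneg y, sq_nonneg v, mul_nonneg (abs_nonneg y) (sq_nonneg v)]
  have h4 : ‖Zt (y + v)‖ ≤ K * ((1 + |y|) * (2 * (1 + v ^ 2))) :=
    h1.trans (mul_le_mul_of_nonneg_left (h2.trans h3) hK.le)
  have h5 : Real.exp (-v ^ 2 / (8 * μ)) ≤ Real.exp (-v ^ 2 / 16) := by
    refine (G_le hμ hμ1 v).trans (Real.exp_le_exp.mpr ?_)
    nlinarith [sq_nonneg v]
  refine (mul_le_mul h4 h5 (Real.exp_pos _).le (by positivity)).trans (le_of_eq ?_)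
  unfold Mj
  ring

theorem gb : S_GB := by
  obtain ⟨K, hK, hZ⟩ := Zt_bound
  set J : ℝ := ∫ v : ℝ, Mj v with hJ
  have hJ0 : 0 ≤ J := integral_nonneg Mj_nonneg
  refine ⟨12, max 1600 ((72 * K * J) ^ 2 + 1), by norm_num, le_trans (by norm_num) (le_max_left _ _),
    ?_⟩
  intro T y μ u hT hy1 hy2 hμ hμ1 hu hu1
  have hT1 : 1600 ≤ T := (le_max_left _ _).trans hT
  have hT2 : (72 * K * J) ^ 2 + 1 ≤ T := (le_max_right _ _).trans hT
  have hT0 : 0 < T := by linarith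
  have hy0 : 0 < y := by linarith
  set D0 := Dz ((y : ℂ) * I) with hD0
  have hlog : |Real.log y - Real.log T| ≤ 2 := by
    have l1 : Real.log y ≤ Real.log T + Real.log 4 := by
      rw [← Real.log_mul (by linarith) (by norm_num)]
      exact Real.log_le_log hy0 (by linarith)
    have l2 : Real.log T - Real.log 2 ≤ Real.log y := by
      rw [← Real.log_div (by linarith) (by norm_num)]
      exact Real.log_le_log (by linarith) hy1
    have l3 : Real.log 4 ≤ 2 := by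
      have e : (4 : ℝ) = 2 * 2 := by norm_num
      rw [e, Real.log_mul (by norm_num) (by norm_num)]
      have := Real.log_le_sub_one_of_pos (show (0 : ℝ) < 2 by norm_num)
      linarith
    have l4 := Real.log_le_sub_one_of_pos (show (0 : ℝ) < 2 by norm_num)
    rw [abs_le]
    constructor <;> linarith
  refine ⟨D0 - u, ?_, ?_, ?_⟩
  · have h1 := abs_le.mp (Dz_re (T := y) (by linarith))
    have h2 := abs_le.mp hlog
    rw [← hD0] at h1
    rw [sub_re, ofReal_re, abs_le]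
    constructor <;> linarith [h1.1, h1.2, h2.1, h2.2]
  · rw [sub_im, ofReal_im, sub_zero]
    exact gz_gamW.im _ (by simp)
  -- the integrands
  set g0 := gz ((y : ℂ) * I) with hg0
  set Bf : ℝ → ℂ := fun v => Zt (y + v) * cexp (I * u * v) *
    (Real.exp (-v ^ 2 / (8 * μ)) : ℂ) with hBf
  set Af : ℝ → ℂ := fun v => LL gk 0 (((y + v : ℝ) : ℂ) * I) * cexp (-(I * (D0 - u) * v)) *
    (Real.exp (-v ^ 2 / (8 * μ)) : ℂ) with hAf
  have hBc : Continuous Bf := by
    have h1 : Continuous fun v : ℝ => Zt (y + v) := Zt_cont.comp (by fun_prop)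
    have h2 : Continuous fun v : ℝ => cexp (I * u * v) := by fun_prop
    have h3 : Continuous fun v : ℝ => (Real.exp (-v ^ 2 / (8 * μ)) : ℂ) :=
      Complex.continuous_ofReal.comp (by fun_prop)
    exact (h1.mul h2).mul h3
  have hAc : Continuous Af := by
    obtain ⟨A, k⟩ := gk_kern
    have h0 : Continuous (LL gk 0) := (k.differentiable 0).continuous
    have h1 : Continuous fun v : ℝ => LL gk 0 (((y + v : ℝ) : ℂ) * I) := h0.comp (by fun_prop)
    have h2 : Continuous fun v : ℝ => cexp (-(I * (D0 - u) * v)) := by fun_prop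
    have h3 : Continuous fun v : ℝ => (Real.exp (-v ^ 2 / (8 * μ)) : ℂ) :=
      Complex.continuous_ofReal.comp (by fun_prop)
    exact (h1.mul h2).mul h3
  have hDeq : ∀ v : ℝ, Af v - g0 * Bf v = g0 * (Zt (y + v) * cexp (I * u * v) *
      (Real.exp (-v ^ 2 / (8 * μ)) : ℂ)) *
      (cexp (Ev y v) * (1 - 2 / (((y + v : ℝ) : ℂ) * I + 3 / 2)) - 1) := by
    intro v
    simp only [hAf, hBf]
    rw [F_eq, gz_exp, ← hD0, ← hg0]
    have e1 : cexp (I * D0 * v + Ev y v) * cexp (-(I * (D0 - u) * v)) =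
        cexp (I * u * v) * cexp (Ev y v) := by
      rw [← Complex.exp_add, ← Complex.exp_add]
      congr 1
      ring
    linear_combination (g0 * ((1 - 2 / (((y + v : ℝ) : ℂ) * I + 3 / 2)) * Zt (y + v)) *
      (Real.exp (-v ^ 2 / (8 * μ)) : ℂ)) * e1
  have hTp : T ^ (-(3 / 4) : ℝ) = T ^ (1 / 4 : ℝ) / T := by
    rw [eq_div_iff hT0.ne']
    nth_rewrite 2 [← Real.rpow_one T]
    rw [← Real.rpow_add hT0]
    norm_num
  have hT3 : 1 / T ≤ T ^ (-(3 / 4) : ℝ) := by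
    rw [hTp]
    have := Real.one_le_rpow (x := T) (by linarith) (show (0 : ℝ) ≤ 1 / 4 by norm_num)
    gcongr
  have hD : ∀ v : ℝ, ‖Af v - g0 * Bf v‖ ≤ ‖g0‖ * (72 * K * T ^ (-(3 / 4) : ℝ)) * Mj v := by
    intro v
    rw [hDeq]
    have hc : ‖cexp (I * u * v)‖ = 1 := by
      rw [Complex.norm_exp]
      simp
    rw [norm_mul, norm_mul, norm_mul, norm_mul, hc, mul_one, Complex.norm_real, Real.norm_eq_abs,
      abs_of_pos (Real.exp_pos _), mul_assoc, mul_assoc ‖g0‖]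
    apply mul_le_mul_of_nonneg_left _ (norm_nonneg _)
    have hG := G_le hμ hμ1 v
    have hZv := hZ (y + v)
    rcases le_total |v| (T / 4) with hv | hv
    · have h1 := fac_near (by linarith) hy1 hv
      have h2 : (1 + |y + v|) ^ (1 / 4 : ℝ) ≤ 2 * T ^ (1 / 4 : ℝ) := by
        have h3 : 1 + |y + v| ≤ 16 * T := by
          have := abs_add_le y v
          rw [abs_of_pos hy0] at this
          linarith
        have h4 : (16 : ℝ) ^ (1 / 4 : ℝ) = 2 := by
          have e : (16 : ℝ) = 2 ^ (4 : ℝ) := by norm_num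
          rw [e, ← Real.rpow_mul (by norm_num)]
          norm_num
        calc (1 + |y + v|) ^ (1 / 4 : ℝ) ≤ (16 * T) ^ (1 / 4 : ℝ) :=
              Real.rpow_le_rpow (by positivity) h3 (by norm_num)
          _ = 2 * T ^ (1 / 4 : ℝ) := by
              rw [Real.mul_rpow (by norm_num) hT0.le, h4]
      have h5 : ‖Zt (y + v)‖ ≤ K * (2 * T ^ (1 / 4 : ℝ)) :=
        hZv.trans (mul_le_mul_of_nonneg_left h2 hK.le)
      have h6 : ‖Zt (y + v)‖ * Real.exp (-v ^ 2 / (8 * μ)) ≤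
          K * (2 * T ^ (1 / 4 : ℝ)) * Real.exp (-v ^ 2 / 8) :=
        mul_le_mul h5 hG (Real.exp_pos _).le (by positivity)
      refine (mul_le_mul h6 h1 (norm_nonneg _) (by positivity)).trans (le_of_eq ?_)
      rw [hTp]
      unfold Mj
      have e1 : Real.exp (-v ^ 2 / 16) = Real.exp (-v ^ 2 / 8) * Real.exp (v ^ 2 / 16) := by
        rw [← Real.exp_add]
        congr 1
        ring
      rw [e1]
      ring
    · have h1 := fac_far y v
      have hv1 : 400 ≤ |v| := by linarith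
      have h2 : (1 + |y + v|) ^ (1 / 4 : ℝ) ≤ 18 * Real.exp |v| := by
        have h3 : 1 + |y + v| ≤ 18 * |v| := by
          have := abs_add_le y v
          rw [abs_of_pos hy0] at this
          linarith
        have h4 : (1 + |y + v|) ^ (1 / 4 : ℝ) ≤ 1 + |y + v| := by
          have := Real.rpow_le_rpow_of_exponent_le (x := 1 + |y + v|)
            (by linarith [abs_nonneg (y + v)]) (show (1 / 4 : ℝ) ≤ 1 by norm_num)
          rwa [Real.rpow_one] at this
        have h5 := Real.add_one_le_exp |v|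
        linarith
      have h5 : ‖Zt (y + v)‖ ≤ K * (18 * Real.exp |v|) :=
        hZv.trans (mul_le_mul_of_nonneg_left h2 hK.le)
      have h6 : ‖Zt (y + v)‖ * Real.exp (-v ^ 2 / (8 * μ)) ≤
          K * (18 * Real.exp |v|) * Real.exp (-v ^ 2 / 8) :=
        mul_le_mul h5 hG (Real.exp_pos _).le (by positivity)
      refine (mul_le_mul h6 h1 (norm_nonneg _) (by positivity)).trans ?_
      have e1 : K * (18 * Real.exp |v|) * Real.exp (-v ^ 2 / 8) * (4 * Real.exp (24 * |v|)) =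
          72 * K * Real.exp (25 * |v| - v ^ 2 / 8) := by
        have e2 : Real.exp (25 * |v| - v ^ 2 / 8) =
            Real.exp |v| * Real.exp (-v ^ 2 / 8) * Real.exp (24 * |v|) := by
          rw [← Real.exp_add, ← Real.exp_add]
          congr 1
          ring
        rw [e2]
        ring
      rw [e1]
      have h7 : Real.exp (25 * |v| - v ^ 2 / 8) ≤ Real.exp (-v ^ 2 / 16) := by
        apply Real.exp_le_exp.mpr
        nlinarith [sq_abs v]
      have h8 : 1 ≤ T ^ (-(3 / 4) : ℝ) * (1 + v ^ 2) := by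
        have h9 : 1 ≤ 1 / T * (1 + v ^ 2) := by
          rw [one_div, inv_mul_eq_div, le_div_iff₀ hT0]
          nlinarith [sq_abs v]
        exact h9.trans (mul_le_mul_of_nonneg_right hT3 (by positivity))
      calc 72 * K * Real.exp (25 * |v| - v ^ 2 / 8) ≤ 72 * K * Real.exp (-v ^ 2 / 16) := by
            gcongr
        _ = 72 * K * Real.exp (-v ^ 2 / 16) * 1 := (mul_one _).symm
        _ ≤ 72 * K * Real.exp (-v ^ 2 / 16) * (T ^ (-(3 / 4) : ℝ) * (1 + v ^ 2)) :=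
            mul_le_mul_of_nonneg_left h8 (by positivity)
        _ = _ := by
            unfold Mj
            ring
  -- integrability
  have hBi : Integrable Bf :=
    (Mj_int.const_mul (2 * K * (1 + |y|))).mono' hBc.aestronglyMeasurable
      (Eventually.of_forall fun v => B_bound hK hZ hμ hμ1 y u v)
  have hDi : Integrable fun v => Af v - g0 * Bf v :=
    (Mj_int.const_mul (‖g0‖ * (72 * K * T ^ (-(3 / 4) : ℝ)))).mono'
      (hAc.sub (continuous_const.mul hBc)).aestronglyMeasurable (Eventually.of_forall hD)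
  have hAi : Integrable Af := by
    refine (hDi.add (hBi.const_mul g0)).congr (Eventually.of_forall fun v => ?_)
    simp only [Pi.add_apply]
    ring
  have hsub : ∫ v, (Af v - g0 * Bf v) = (∫ v, Af v) - g0 * ∫ v, Bf v := by
    rw [integral_sub hAi (hBi.const_mul g0), integral_const_mul]
  have hnorm : ‖∫ v, (Af v - g0 * Bf v)‖ ≤ ‖g0‖ * (72 * K * T ^ (-(3 / 4) : ℝ)) * J := by
    have h1 := norm_integral_le_of_norm_le
      (Mj_int.const_mul (‖g0‖ * (72 * K * T ^ (-(3 / 4) : ℝ)))) (Eventually.of_forall hD)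
    rwa [integral_const_mul] at h1
  have hsmall : 72 * K * T ^ (-(3 / 4) : ℝ) * J ≤ T ^ (-(1 / 4) : ℝ) := by
    have e1 : T ^ (-(3 / 4) : ℝ) = T ^ (-(1 / 4) : ℝ) * T ^ (-(1 / 2) : ℝ) := by
      rw [← Real.rpow_add hT0]
      norm_num
    have e2 : T ^ (-(1 / 2) : ℝ) * (72 * K * J) ≤ 1 := by
      rw [Real.rpow_neg hT0.le, ← Real.sqrt_eq_rpow, inv_mul_le_iff₀ (Real.sqrt_pos.mpr hT0),
        mul_one]
      exact Real.le_sqrt_of_sq_le (by linarith)
    rw [e1]
    have e3 : 0 ≤ T ^ (-(1 / 4) : ℝ) := Real.rpow_nonneg hT0.le _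
    calc 72 * K * (T ^ (-(1 / 4) : ℝ) * T ^ (-(1 / 2) : ℝ)) * J =
          T ^ (-(1 / 4) : ℝ) * (T ^ (-(1 / 2) : ℝ) * (72 * K * J)) := by ring
      _ ≤ T ^ (-(1 / 4) : ℝ) * 1 := mul_le_mul_of_nonneg_left e2 e3
      _ = _ := mul_one _
  have hW : Wg μ u y = ∫ v, Bf v := rfl
  rw [hW, ← norm_mul]
  have e1 : g0 * ∫ v, Bf v = (∫ v, Af v) - ∫ v, (Af v - g0 * Bf v) := by
    rw [hsub]
    ring
  rw [e1]
  refine (norm_sub_le _ _).trans ?_
  have h9 : ‖g0‖ * (72 * K * T ^ (-(3 / 4) : ℝ)) * J ≤ ‖g0‖ * T ^ (-(1 / 4) : ℝ) := by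
    rw [mul_assoc]
    exact mul_le_mul_of_nonneg_left hsmall (norm_nonneg _)
  exact add_le_add le_rfl (hnorm.trans h9)

end Pool.Agent.H294.HD
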